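import Pool.Agent.H87.CLG.Targets

/-!
# MP_335823_al, row LEQ: a submodule is determined by its leading coefficients
-/

set_option autoImplicit false

open MvPolynomial
open scoped commutatorElement

namespace Pool.Agent.H86.CLG
open Pool.Agent.H87.CLG

universe u v

theorem exists_max {α : Type*} [DecidableEq α] (R : α → α → Prop)
    (htri : ∀ a b, R a b ∨ a = b ∨ R b a) (htr : ∀ a b c, R a b → R b c → R a c)
    (s : Finset α) : s.Nonempty → ∃ m ∈ s, ∀ q ∈ s, q = m ∨ R q m := by
  induction s using Finset.induction_on with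
  | empty => intro h; exact absurd h Finset.not_nonempty_empty
  | insert a s ha ih =>
    intro _
    rcases s.eq_empty_or_nonempty with rfl | hs
    · refine ⟨a, Finset.mem_insert_self _ _, fun q hq => ?_⟩
      rw [Finset.mem_insert] at hq
      rcases hq with h | h
      · exact Or.inl h
      · exact absurd h (Finset.notMem_empty q)
    · obtain ⟨m, hm, hmax⟩ := ih hs
      rcases htri a m with h | h | h
      · refine ⟨m, Finset.mem_insert_of_mem hm, fun q hq => ?_⟩
        rw [Finset.mem_insert] at hq
        rcases hq with rfl | hq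
        · exact Or.inr h
        · exact hmax q hq
      · refine ⟨m, Finset.mem_insert_of_mem hm, fun q hq => ?_⟩
        rw [Finset.mem_insert] at hq
        rcases hq with rfl | hq
        · exact Or.inl h
        · exact hmax q hq
      · refine ⟨a, Finset.mem_insert_self _ _, fun q hq => ?_⟩
        rw [Finset.mem_insert] at hq
        rcases hq with rfl | hq
        · exact Or.inl rfl
        · rcases hmax q hq with rfl | h2
          · exact Or.inr h
          · exact Or.inr (htr _ _ _ h2 h)

theorem exists_top {Λ : Type} {n : ℕ} (R : Mo Λ × Fin n → Mo Λ × Fin n → Prop)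
    (htri : ∀ a b, R a b ∨ a = b ∨ R b a) (htr : ∀ a b c, R a b → R b c → R a c)
    (h : Fin n → PR Λ) (hne : h ≠ 0) :
    ∃ p : Mo Λ × Fin n, coeff p.1 (h p.2) ≠ 0 ∧
      ∀ q : Mo Λ × Fin n, coeff q.1 (h q.2) ≠ 0 → q = p ∨ R q p := by
  classical
  set S : Finset (Mo Λ × Fin n) :=
    Finset.univ.biUnion fun c => (h c).support.image fun u => (u, c) with hS
  have hmem : ∀ q : Mo Λ × Fin n, q ∈ S ↔ coeff q.1 (h q.2) ≠ 0 := by
    rintro ⟨u, c⟩
    rw [hS, Finset.mem_biUnion]
    constructor
    · rintro ⟨c', _, hc'⟩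
      rw [Finset.mem_image] at hc'
      obtain ⟨u', hu', he⟩ := hc'
      rw [Prod.mk.injEq] at he
      obtain ⟨rfl, rfl⟩ := he
      exact mem_support_iff.1 hu'
    · intro hne'
      exact ⟨c, Finset.mem_univ _, Finset.mem_image.2 ⟨u, mem_support_iff.2 hne', rfl⟩⟩
  have hSne : S.Nonempty := by
    by_contra hcon
    rw [Finset.not_nonempty_iff_eq_empty] at hcon
    apply hne
    funext c
    ext u
    by_contra hc
    have h1 : ((u, c) : Mo Λ × Fin n) ∈ S := (hmem (u, c)).2 (by
      intro h0
      apply hc
      rw [Pi.zero_apply, coeff_zero]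
      exact h0)
    rw [hcon] at h1
    exact Finset.notMem_empty _ h1
  obtain ⟨m, hm, hmax⟩ := exists_max R htri htr S hSne
  exact ⟨m, (hmem m).1 hm, fun q hq => hmax q ((hmem q).2 hq)⟩

theorem pf_LEQ (h : T_RWO) : T_LEQ := by
  intro Λ n r K L hr hKL hLm
  have hwo : IsWellOrder (Mo Λ × Fin n) (Rm r) := h Λ n r hr
  have htri : ∀ a b : Mo Λ × Fin n, Rm r a b ∨ a = b ∨ Rm r b a := fun a b =>
    trichotomous_of (Rm r) a b
  have htr : ∀ a b c : Mo Λ × Fin n, Rm r a b → Rm r b c → Rm r a c := fun a b c h1 h2 =>
    trans_of (Rm r) h1 h2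
  have claim : ∀ p : Mo Λ × Fin n, ∀ f ∈ L,
      (∀ q : Mo Λ × Fin n, coeff q.1 (f q.2) ≠ 0 → q = p ∨ Rm r q p) → f ∈ K := by
    intro p
    induction p using hwo.wf.induction with
    | _ p ih =>
      intro f hf hfp
      obtain ⟨g, hg, hgp, hg2⟩ := hLm p ⟨f, hf, rfl, hfp⟩
      by_cases h0 : f - g = 0
      · rw [sub_eq_zero] at h0
        rw [h0]
        exact hg
      · obtain ⟨p', hp', hmax⟩ := exists_top (Rm r) htri htr (f - g) h0
        have hlt : Rm r p' p := by
          have h1 : p' = p ∨ Rm r p' p := by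
            by_cases h2 : coeff p'.1 (f p'.2) = 0
            · apply hg2
              intro h3
              apply hp'
              rw [Pi.sub_apply, coeff_sub, h2, h3, sub_zero]
            · exact hfp p' h2
          rcases h1 with rfl | h1
          · exfalso
            apply hp'
            rw [Pi.sub_apply, coeff_sub, hgp, sub_self]
          · exact h1
        have h3 := ih p' hlt (f - g) (L.sub_mem hf (hKL hg)) hmax
        have h4 := K.add_mem h3 hg
        rwa [sub_add_cancel] at h4
  intro f hf
  by_cases h0 : f = 0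
  · rw [h0]
    exact K.zero_mem
  · obtain ⟨p, _, hmax⟩ := exists_top (Rm r) htri htr f h0
    exact claim p f hf hmax

end Pool.Agent.H86.CLG
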