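import Pool.Agent.H87.CLG.Targets

/-!
# MP_335823_al, row LID: the leading coefficients form an ideal
-/

set_option autoImplicit false

open MvPolynomial
open scoped commutatorElement

namespace Pool.Agent.H86.CLG
open Pool.Agent.H87.CLG

universe u v

theorem pf_LID : T_LID := by
  intro Λ n r K p
  refine ⟨{ carrier := Lm r K p, add_mem' := ?_, zero_mem' := ?_, smul_mem' := ?_ }, rfl⟩
  · rintro a b ⟨f, hf, hfa, hf2⟩ ⟨g, hg, hgb, hg2⟩
    refine ⟨f + g, K.add_mem hf hg, ?_, fun q hq => ?_⟩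
    · rw [Pi.add_apply, coeff_add, hfa, hgb]
    · rw [Pi.add_apply, coeff_add] at hq
      by_cases h : coeff q.1 (f q.2) = 0
      · apply hg2
        intro h2
        exact hq (by rw [h, h2, add_zero])
      · exact hf2 q h
  · refine ⟨0, K.zero_mem, by rw [Pi.zero_apply, coeff_zero], fun q hq => ?_⟩
    rw [Pi.zero_apply, coeff_zero] at hq
    exact absurd rfl hq
  · rintro c a ⟨f, hf, hfa, hf2⟩
    refine ⟨(C c : PR Λ) • f, K.smul_mem _ hf, ?_, fun q hq => ?_⟩
    · rw [Pi.smul_apply, smul_eq_mul, coeff_C_mul, hfa]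
      rfl
    · apply hf2
      intro h2
      rw [Pi.smul_apply, smul_eq_mul, coeff_C_mul, h2, mul_zero] at hq
      exact hq rfl

end Pool.Agent.H86.CLG
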